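import Pool.Agent.Helper29.MX.Bas
import Pool.Agent.Helper77.TPX.Def
import Pool.Agent.Helper84.MT.Row

/-! SELECTION, FIRST HALF (row `SELP` of Helper29/MX/St), version 2: text `ns_max_v4` of helper43, two caps: windows `< l`,
depths of TOP `≤ d = La * l` (helper49, helper2); the TOP EXPONENT of the hull may be larger than all successive
exponents `lmd` (helper25), so the rows about zooms and corners assume `TopG`.

PAIRS `(s, R)`, `R` any resolution between `⊥` and the present cells, exact K-labels, flag rows. `BK` rigid stable pairs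
(pre-members); `KE` the class K (total exponent Lipschitz, TOP), up to an error; `LL` the members of K with linear
exponents of all prefixes. Output: minimal total speed `W` and a member of `LL` with this speed.
SECOND HALF (VIS, copy, type-labels, frames, sorted weights): Helper29/MX/St2. -/

set_option autoImplicit false

namespace Pool.Agent.Helper94.SEL

open Finset Filter Topology Matrix Pool.Agent.Helper69.RK Pool.Agent.Helper31.EC Pool.Agent.Helper31.EC.Sp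
open Pool.Agent.Helper40.EL Pool.Agent.Helper89.LX Pool.Agent.Helper84.MT
open Pool.Agent.Helper49.MD Pool.Agent.Helper36.AM
open Pool.Agent.Helper47.FN (KR lftR obR)
open Pool.Agent.Helper3.LF (Mon)
open Pool.Agent.Helper7.RD (RW)
open Pool.Agent.Helper29.MX
open Pool.Agent.Helper77.TPX (oth)

noncomputable section

variable {S T : Sp} {N M : ℕ} {E : ℕ → ℕ} {ι : Type}

/-! ### numbers -/

/-- TOTAL EXPONENT of the K-labels of the window `c` -/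
def tot (s : MSys S N E ι) (R : Rsl S) (c : ℝ) : ℝ := N - volKO s R c

/-- exponent of the first `j` coordinates, K-labels of the window `c` -/
def num (s : MSys S N E ι) (R : Rsl S) {j : ℕ} (hj : j ≤ N) (c : ℝ) : ℝ := j - volP s R c hj

/-- exponent of the coordinate `j` in the optimal flag of the window `c` -/
def lmd (s : MSys S N E ι) (R : Rsl S) (c : ℝ) (j : Fin N) : ℝ := num s R (Nat.succ_le_of_lt j.2) c - num s R j.2.le c

/-- parameters: `ρ` of TOP; `l` the cap of the windows; `La` the Lipschitz constant -/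
structure Par where
  ρ : ℝ
  l : ℝ
  La : ℝ
  ρ0 : 0 < ρ
  ρ1 : ρ ≤ 1
  l0 : 0 < l
  La1 : 1 ≤ La
  lLa : La * (La * l) < 1

/-- the cap of the depths of TOP -/
def Par.d (P : Par) : ℝ := P.La * P.l

/-! ### the classes of pairs -/

/-- RIGID STABLE PAIRS (pre-members): the exponents of the windows `c < b0` are the same on all events -/
structure BK (C : MCl (M + 1)) (v g r e0 : ℕ) (b0 : ℝ) (S : Sp) (s : MSys S (M + 1) (lin g) (Fin r)) (R : Rsl S) :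
    Prop where
  cl : CvK C v S g r s R
  dim : ∀ i, (s.lf i).e ≤ e0
  /-- the charts are polynomials of degree at most `g` -/
  pol : Pool.Agent.Helper26.OUT.WDs (fun _ => (g : ℝ)) s
  stb : Stb 0 s R
  rig : ∀ (T : Sp) (q : Pj T S) (A : ∀ k, (T.F k).Ω → Prop) (hA : 0 < ul (T.pr A)) (c : ℝ), 0 ≤ c → c < b0 →
    ∀ (j : ℕ) (hj : j ≤ M + 1), num (s.im q A hA) R hj c = num s R hj c

/-- Lipschitz on the windows `c < l`, error `ε` -/
def Lip (l La ε : ℝ) (s : MSys S N E ι) (R : Rsl S) : Prop := ∀ c c' : ℝ, 0 ≤ c → c ≤ c' → c' < l →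
  tot s R c' - tot s R c ≤ La * (c' - c) + ε

/-- TOP for the last coordinate, depths `≤ l`, error `ε`, on all events (helper77's `TopE` for `ε = 0`) -/
def Top (ρ l ε : ℝ) (Q : S.VV (M + 1)) : Prop := ∀ (T : Sp) (q : Pj T S) (A : ∀ k, (T.F k).Ω → Prop),
  0 < ul (T.pr A) → ∀ a b : ℝ, 0 ≤ a → a ≤ b → b ≤ l →
    h (((Q.im q A).co (Fin.last M)).dg b) (((Q.im q A).co (Fin.last M)).dg a ⊔ (oth (Q.im q A) (Fin.last M)).dg 1) ≤
      (1 - ρ) * (b - a) + ε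

/-- THE CLASS K, error `ε` (`ε = 0`: the class itself) -/
structure KE (C : MCl (M + 1)) (v g r e0 : ℕ) (P : Par) (ε : ℝ) (S : Sp) (s : MSys S (M + 1) (lin g) (Fin r))
    (R : Rsl S) : Prop where
  bk : BK C v g r e0 P.l S s R
  lip : Lip P.l P.La ε s R
  top : Top P.ρ P.d ε s.Q

/-- members of K with linear exponents of all prefixes (speeds `a j`) -/
structure LL (C : MCl (M + 1)) (v g r e0 : ℕ) (P : Par) (a : ℕ → ℝ) (S : Sp)
    (s : MSys S (M + 1) (lin g) (Fin r)) (R : Rsl S) : Prop where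
  ke : KE C v g r e0 P 0 S s R
  num : ∀ c : ℝ, 0 ≤ c → c < P.l → ∀ (j : ℕ) (hj : j ≤ M + 1), num s R hj c = a j * c

/-- MINIMAL total speed (of degree `g`) -/
def Mn (C : MCl (M + 1)) (v g r e0 : ℕ) (P : Par) (W : ℝ) : Prop := ∀ (S : Sp)
  (s : MSys S (M + 1) (lin g) (Fin r)) (R : Rsl S) (w : ℝ), KE C v g r e0 P 0 S s R →
    (∀ c : ℝ, 0 ≤ c → c < P.l → Pool.Agent.Helper94.SEL.tot s R c = w * c) → W ≤ w

/-- speeds of the prefixes, total speed `W` -/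
structure Spd (M : ℕ) (a : ℕ → ℝ) (W : ℝ) : Prop where
  zero : a 0 = 0
  step : ∀ j, j ≤ M → a j + 1 ≤ a (j + 1)
  tot : a (M + 1) = W

/-! ### context -/

/-- the context of all rows: closed classes, structure theorem in smaller dimensions, structure theorem with more unit
directions (limits of stable pairs with a linear bound: theorem `NSLB` of helper43, no hypothesis) -/
structure Ctx (M : ℕ) (A : MCl (M + 1)) (C : ℕ → MCl (M + 1)) (v : ℕ) : Prop where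
  M1 : 1 ≤ M
  ok : Okc (M + 1) A C
  st : ∀ m, m < M + 1 → STu m
  sto : STO (M + 1) (Cv A (v + 1))

/-- the TOP EXPONENT of the K-hulls of the window `c` is at most `1 - e`: the optimal forms of all degrees are at most
`2 ^ (2 (1 - e) n)` (helper25) -/
def TopG (s : MSys S N E ι) (R : Rsl S) (c e : ℝ) : Prop := ∀ (D : ℕ) (x : ∀ k, FD (S.F k) (Mon N D)),
  KOp s R D c x → GrB s.Q x e

/-! ### auxiliary rows -/

/-- [NUMX] (helper84): elementary properties of the numbers (any system, any resolution) -/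
structure NUMX (M : ℕ) : Prop where
  mono : ∀ (S : Sp) (E : ℕ → ℕ) (r : ℕ) (s : MSys S (M + 1) E (Fin r)) (R : Rsl S) (c c' : ℝ), 0 ≤ c → c ≤ c' →
    c' ≤ 1 → ∀ (j : ℕ) (hj : j ≤ M + 1), num s R hj c ≤ num s R hj c'
  zero : ∀ (S : Sp) (E : ℕ → ℕ) (r : ℕ) (s : MSys S (M + 1) E (Fin r)) (R : Rsl S) (c : ℝ),
    num s R (Nat.zero_le _) c = 0
  last : ∀ (S : Sp) (E : ℕ → ℕ) (r : ℕ) (s : MSys S (M + 1) E (Fin r)) (R : Rsl S) (c : ℝ),
    num s R le_rfl c = tot s R c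
  /-- every coordinate has at least the exponent `c` -/
  step : ∀ (S : Sp) (E : ℕ → ℕ) (r : ℕ) (s : MSys S (M + 1) E (Fin r)) (R : Rsl S) (c : ℝ), Pt s R → 0 ≤ c → c ≤ 1 →
    ∀ (j : ℕ) (hj : j + 1 ≤ M + 1), num s R (Nat.le_of_succ_le hj) c + c ≤ num s R hj c
  /-- coarser resolutions have fewer labels -/
  res : ∀ (S : Sp) (E : ℕ → ℕ) (r : ℕ) (s : MSys S (M + 1) E (Fin r)) (R R' : Rsl S) (c : ℝ),
    (∀ᶠ k in UF, R k ≤ R' k) → ∀ (j : ℕ) (hj : j ≤ M + 1), num s R' hj c ≤ num s R hj c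

/-- [TGR] (helper25): total exponents less than one bound the top exponent -/
def TGR (M : ℕ) : Prop := ∀ (A : MCl (M + 1)) (C : ℕ → MCl (M + 1)) (v : ℕ), Ctx M A C v →
  ∀ (m g r e0 : ℕ) (b0 : ℝ) (S : Sp) (s : MSys S (M + 1) (lin g) (Fin r)) (R : Rsl S),
    BK (C m) v g r e0 b0 S s R → ∀ c e : ℝ, 0 ≤ c → c < b0 → c < 1 → 0 < e → tot s R c + e ≤ 1 → TopG s R c e

/-- [TRNX] (helper71, 25, 77): truncations, on the windows with relative total exponent less than one -/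
def TRNX (M : ℕ) : Prop := ∀ (A : MCl (M + 1)) (C : ℕ → MCl (M + 1)) (v : ℕ), Ctx M A C v →
  ∀ (m g r e0 : ℕ) (b0 : ℝ) (S : Sp) (s : MSys S (M + 1) (lin g) (Fin r)) (R : Rsl S),
    BK (C m) v g r e0 b0 S s R → ∀ (e : ℝ) (he : 0 < e) (h1 : e ≤ 1) (b1 : ℝ), 0 < b1 → b1 ≤ 1 →
      (∀ b : ℝ, 0 ≤ b → b < b1 → e * b < b0 ∧ tot s R (e * b) < e) →
      BK (C m) v g r e0 b1 (S.chg S.tr e he) (s.trn e he h1) R ∧
      (∀ b : ℝ, 0 ≤ b → b < b1 → ∀ (j : ℕ) (hj : j ≤ M + 1), num (s.trn e he h1) R hj b = num s R hj (e * b) / e) ∧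
      ∀ ρ ε : ℝ, 0 ≤ ε → Top ρ (e * b1) ε s.Q → Top ρ b1 (ε / e) (s.trn e he h1).Q

/-- [ZOOMX] (helper63 = ZMX, from 4, 7, 49, 55, 25): zooms of a rigid stable pair in optimal flag rows over a literal
carrier of the window `c > 0`, unit `e`; `gb r e0 La` bounds the degree of the zoom, `D1` the degree of the rows -/
def ZOOMX (M : ℕ) (gb : ℕ → ℕ → ℝ → ℕ) : Prop := ∀ (A : MCl (M + 1)) (C : ℕ → MCl (M + 1)) (v : ℕ), Ctx M A C v →
  ∀ (m g r e0 : ℕ) (La : ℝ), ∃ D1 : ℕ, ∀ (b0 : ℝ) (S : Sp) (s : MSys S (M + 1) (lin g) (Fin r)) (R : Rsl S),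
    BK (C m) v g r e0 b0 S s R → ∀ (c e b1 : ℝ), 0 < c → 0 < e → 0 < b1 → b1 ≤ 1 → tot s R c + e ≤ La * c →
      TopG s R c e → (∀ b : ℝ, 0 ≤ b → b < b1 → c + e * b < b0 ∧ tot s R (c + e * b) < tot s R c + e) →
      ∃ (z : RW s (M + 1)) (W : Rsl S), z.Z.l = Lab.ofZ W ∧ z.Z.c = c ∧ z.Z.u = e ∧ z.κ = gb r e0 La ∧ z.D ≤ D1 ∧
        KLb s R c z.Z.l ∧ Flg z (lmd s R c) ∧
        BK (C m) v z.κ r e0 b1 z.Z.sp z.sys (rover z.Z.l z.Z.u z.Z.hu R) ∧
        ∀ b : ℝ, 0 ≤ b → b < b1 → ∀ (j : ℕ) (hj : j ≤ M + 1),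
          num z.sys (rover z.Z.l z.Z.u z.Z.hu R) hj b = (num s R hj (c + e * b) - num s R hj c) / e

/-- [TOPF] (helper77): TOP of a flag zoom (literal label, resolved point), from TOP of the system, with an error -/
def TOPF (M : ℕ) : Prop := ∀ (A : MCl (M + 1)) (C : ℕ → MCl (M + 1)) (v : ℕ), Ctx M A C v →
  ∀ (m g r e0 : ℕ) (b0 : ℝ) (S : Sp) (s : MSys S (M + 1) (lin g) (Fin r)) (R : Rsl S),
    BK (C m) v g r e0 b0 S s R → ∀ (ρ c e b1 : ℝ), 0 < c → 0 < e → 0 < b1 → b1 ≤ 1 →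
      (∀ b : ℝ, 0 ≤ b → b < b1 → c + e * b < b0 ∧ tot s R (c + e * b) < tot s R c + e) →
      ∀ z : RW s (M + 1), (∃ W : Rsl S, z.Z.l = Lab.ofZ W) → Pt z.sys (rover z.Z.l z.Z.u z.Z.hu R) → z.Z.c = c →
        z.Z.u = e → KLb s R c z.Z.l → Flg z (lmd s R c) → ∀ ε : ℝ, 0 ≤ ε → Top ρ (lmd s R c (Fin.last M) + e * b1) ε s.Q → Top ρ b1 (ε / e) z.X

/-- the flag zooms over literal K-labels of the window `c` with small units have TOP up to a small error -/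
def TopZ (ρ l : ℝ) (s : MSys S (M + 1) E ι) (R : Rsl S) (c : ℝ) : Prop := ∀ ε : ℝ, 0 < ε → ∃ e1 : ℝ, 0 < e1 ∧
  ∀ z : RW s (M + 1), (∃ W : Rsl S, z.Z.l = Lab.ofZ W) → Pt z.sys (rover z.Z.l z.Z.u z.Z.hu R) → z.Z.c = c →
    z.Z.u < e1 → KLb s R c z.Z.l → Flg z (lmd s R c) → Top ρ l ε z.X

/-- [TOPZ] (helper77): from TOP of the system up to the depth `d`; the depth `lmd _ (last)` of the last coordinate is less
than `d`, `c` is a point of differentiability of the total exponent -/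
def TOPZ (M : ℕ) : Prop := ∀ (A : MCl (M + 1)) (C : ℕ → MCl (M + 1)) (v : ℕ), Ctx M A C v →
  ∀ (m g r e0 : ℕ) (b0 : ℝ) (S : Sp) (s : MSys S (M + 1) (lin g) (Fin r)) (R : Rsl S),
    BK (C m) v g r e0 b0 S s R → ∀ ρ d l La : ℝ, 0 < l → l ≤ 1 → 0 ≤ La → La * l < 1 → Top ρ d 0 s.Q →
      ∀ c : ℝ, 0 < c → c < b0 → c < 1 → lmd s R c (Fin.last M) < d →
        ∀ w : ℝ, w ≤ La → HasDerivAt (fun c => tot s R c) w c → TopZ ρ l s R c

/-- [LIMX] (helper49): limits of members of K; `I` the set of prefixes the exponents of which converge -/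
def LIMX (M : ℕ) : Prop := ∀ (A : MCl (M + 1)) (C : ℕ → MCl (M + 1)) (v : ℕ), Ctx M A C v →
  ∀ (m g r e0 : ℕ) (P : Par) (ε : ℕ → ℝ), (∀ j, 0 ≤ ε j) → Tendsto ε atTop (𝓝 0) →
    ∀ (φ : ℝ → ℝ) (α : ℕ → ℝ → ℝ) (I : Set ℕ),
    DiagTo (fun i => lftR fun S (s : MSys S (M + 1) (lin g) (Fin r)) R => KE (C m) v g r e0 P (ε i) S s R ∧
        ∀ c : ℝ, 0 ≤ c → c < P.l → |tot s R c - φ c| ≤ ε i ∧
          ∀ j ∈ I, ∀ hj : j ≤ M + 1, |num s R hj c - α j c| ≤ ε i)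
      (lftR fun S (s : MSys S (M + 1) (lin g) (Fin r)) R => KE (C m) v g r e0 P 0 S s R ∧
        ∀ c : ℝ, 0 ≤ c → c < P.l → tot s R c = φ c ∧ ∀ j ∈ I, ∀ hj : j ≤ M + 1, num s R hj c = α j c)

/-- closed under events of extensions and slow diagonals -/
def Cl2 {g r : ℕ} (TT : ∀ S : Sp, MSys S (M + 1) (lin g) (Fin r) → Rsl S → Prop) : Prop :=
  (∀ S s R, TT S s R → ∀ (T : Sp) (q : Pj T S) (A : ∀ k, (T.F k).Ω → Prop) (hA : 0 < ul (T.pr A)),
    TT (Sp.im q A) (s.im q A hA) R) ∧ DiagCl (lftR TT)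

/-- THE OUTPUT OF [FIRST]: a closed class of pairs with linear total exponent `w0 c`, deficient at all levels (the class of
helper15: literal labels with information rate `q < 1`; [LIMF] helper49, helper15, inside [FIRST]) -/
structure FC (C : MCl (M + 1)) (v g r e0 : ℕ) (ρ w0 : ℝ)
    (TT : ∀ S : Sp, MSys S (M + 1) (lin g) (Fin r) → Rsl S → Prop) : Prop where
  rho : 0 < ρ
  w1 : 1 ≤ w0
  cls : Cl2 TT
  ne : ∃ S s R, TT S s R
  cl : ∀ S s R, TT S s R → CvK C v S g r s R ∧ (∀ i, (s.lf i).e ≤ e0) ∧ Pool.Agent.Helper26.OUT.WDs (fun _ => (g : ℝ)) s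
  tot : ∀ S s R, TT S s R → ∀ c : ℝ, 0 ≤ c → w0 * c < 1 → tot s R c = w0 * c
  dfc : ∀ S s R, TT S s R → ∀ b : ℝ, 0 ≤ b → b ≤ 1 → H (s.Q.dg b) ≤ (M + 1 - ρ) * b

/-- [CORN] (helper71, from ZOOMX and LIMX): the corner of a pre-member at a point of differentiability -/
def CORN (M : ℕ) (gb : ℕ → ℕ → ℝ → ℕ) : Prop := ∀ (A : MCl (M + 1)) (C : ℕ → MCl (M + 1)) (v : ℕ), Ctx M A C v →
  ∀ (m g r e0 : ℕ) (b0 La : ℝ) (P : Par) (S : Sp) (s : MSys S (M + 1) (lin g) (Fin r)) (R : Rsl S),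
    BK (C m) v g r e0 b0 S s R → ∀ (c w : ℝ) (α : ℕ → ℝ) (I : Set ℕ), 0 < c → c < b0 → c < 1 →
      (∃ e : ℝ, 0 < e ∧ TopG s R c e) → tot s R c < La * c → TopZ P.ρ P.d s R c →
      HasDerivAt (fun c => tot s R c) w c → w ≤ P.La →
      (∀ j ∈ I, ∀ hj : j ≤ M + 1, HasDerivAt (fun c => num s R hj c) (α j) c) →
      ∃ (S' : Sp) (t : MSys S' (M + 1) (lin (gb r e0 La)) (Fin r)) (R' : Rsl S'),
        KE (C m) v (gb r e0 La) r e0 P 0 S' t R' ∧
        ∀ b : ℝ, 0 ≤ b → b < P.l → tot t R' b = w * b ∧ ∀ j ∈ I, ∀ hj : j ≤ M + 1, num t R' hj b = α j * b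

/-! ### the rows of the assembly -/

/-- the degree of the members: corners at points with `tot < (La + 1) c` -/
def gd (gb : ℕ → ℕ → ℝ → ℕ) (r e0 : ℕ) (P : Par) : ℕ := gb r e0 (P.La + 1)

/-- [FIRST] (helper15, 3, 89, 61, 66, 49): a class `FC` -/
def FIRST (M : ℕ) : Prop := ∀ (A : MCl (M + 1)) (C : ℕ → MCl (M + 1)) (v : ℕ), Ctx M A C v → Ent A C →
  ¬ STO (M + 1) (Cv A v) → ∃ (m g r e0 : ℕ) (ρ w0 : ℝ) (TT : ∀ S : Sp, MSys S (M + 1) (lin g) (Fin r) → Rsl S → Prop),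
    FC (C m) v g r e0 ρ w0 TT

/-- [SCN] (helper63): the second corner -/
def SCN (M : ℕ) (gb : ℕ → ℕ → ℝ → ℕ) : Prop := ∀ (A : MCl (M + 1)) (C : ℕ → MCl (M + 1)) (v : ℕ), Ctx M A C v →
  ∀ (m g r e0 : ℕ) (ρ w0 : ℝ) (TT : ∀ S : Sp, MSys S (M + 1) (lin g) (Fin r) → Rsl S → Prop),
    FC (C m) v g r e0 ρ w0 TT → ∃ P : Par, P.La = w0 ∧
      ∃ (S : Sp) (s : MSys S (M + 1) (lin (gd gb r e0 P)) (Fin r)) (R : Rsl S),
        KE (C m) v (gd gb r e0 P) r e0 P 0 S s R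

/-- [MINW] (helper52): the minimal total speed is attained -/
def MINW (M : ℕ) (gb : ℕ → ℕ → ℝ → ℕ) : Prop := ∀ (A : MCl (M + 1)) (C : ℕ → MCl (M + 1)) (v : ℕ), Ctx M A C v →
  ∀ (m r e0 : ℕ) (P : Par), (∃ (S : Sp) (s : MSys S (M + 1) (lin (gd gb r e0 P)) (Fin r)) (R : Rsl S),
      KE (C m) v (gd gb r e0 P) r e0 P 0 S s R) →
    ∃ W : ℝ, 1 ≤ W ∧ W ≤ P.La ∧ Mn (C m) v (gd gb r e0 P) r e0 P W ∧
      ∃ (S : Sp) (s : MSys S (M + 1) (lin (gd gb r e0 P)) (Fin r)) (R : Rsl S),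
        KE (C m) v (gd gb r e0 P) r e0 P 0 S s R ∧ ∀ c : ℝ, 0 ≤ c → c < P.l → tot s R c = W * c

/-- [ONEC] (helper22): one corner makes all prefixes linear -/
def ONEC (M : ℕ) (gb : ℕ → ℕ → ℝ → ℕ) : Prop := ∀ (A : MCl (M + 1)) (C : ℕ → MCl (M + 1)) (v : ℕ), Ctx M A C v →
  ∀ (m r e0 : ℕ) (P : Par) (W : ℝ), 1 ≤ W → W ≤ P.La →
    (∃ (S : Sp) (s : MSys S (M + 1) (lin (gd gb r e0 P)) (Fin r)) (R : Rsl S),
        KE (C m) v (gd gb r e0 P) r e0 P 0 S s R ∧ ∀ c : ℝ, 0 ≤ c → c < P.l → tot s R c = W * c) →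
      ∃ a : ℕ → ℝ, Spd M a W ∧ ∃ (S : Sp) (s : MSys S (M + 1) (lin (gd gb r e0 P)) (Fin r)) (R : Rsl S),
        LL (C m) v (gd gb r e0 P) r e0 P a S s R

/-- MINIMALITY at corners: no pre-member of any degree the flag zooms of which have TOP has a derivative less than `W` -/
def MnC (C : MCl (M + 1)) (v r e0 : ℕ) (P : Par) (W : ℝ) : Prop := ∀ (g : ℕ) (b0 : ℝ) (S : Sp)
  (s : MSys S (M + 1) (lin g) (Fin r)) (R : Rsl S), BK C v g r e0 b0 S s R → ∀ c w : ℝ, 0 < c → c < b0 → c < 1 →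
    (∃ e : ℝ, 0 < e ∧ TopG s R c e) → tot s R c ≤ P.La * c → TopZ P.ρ P.d s R c →
      HasDerivAt (fun c => tot s R c) w c → w ≤ P.La → W ≤ w

/-- THE JOINT with the second half: minimal speed and a member of `LL` -/
def JNT (M : ℕ) : Prop := ∀ (A : MCl (M + 1)) (C : ℕ → MCl (M + 1)) (v : ℕ), Ctx M A C v → Ent A C →
  ¬ STO (M + 1) (Cv A v) → ∃ (m g r e0 : ℕ) (P : Par) (W : ℝ) (a : ℕ → ℝ), W ≤ P.La ∧ Spd M a W ∧
    MnC (C m) v r e0 P W ∧
    ∃ (S : Sp) (s : MSys S (M + 1) (lin g) (Fin r)) (R : Rsl S), LL (C m) v g r e0 P a S s R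

end

end Pool.Agent.Helper94.SEL
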