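import Pool.Agent.Helper94.SEL.St

/-! Consequences of the rows: `LL` is closed under truncations and under zooms in flag rows; THE JOINT. -/

set_option autoImplicit false

namespace Pool.Agent.Helper94.SEL

open Finset Filter Topology Matrix Pool.Agent.Helper69.RK Pool.Agent.Helper31.EC Pool.Agent.Helper31.EC.Sp
open Pool.Agent.Helper40.EL Pool.Agent.Helper89.LX Pool.Agent.Helper84.MT
open Pool.Agent.Helper49.MD Pool.Agent.Helper36.AM
open Pool.Agent.Helper7.RD (RW)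
open Pool.Agent.Helper29.MX
open Pool.Agent.Helper77.TPX (oth)

noncomputable section

variable {M : ℕ} {A : MCl (M + 1)} {C : ℕ → MCl (M + 1)} {v : ℕ}

theorem Par.d_pos (P : Par) : 0 < P.d := mul_pos (by linarith [P.La1]) P.l0

theorem Par.l_le_d (P : Par) : P.l ≤ P.d := by
  unfold Par.d
  nlinarith [P.La1, P.l0]

theorem Par.La_d (P : Par) : P.La * P.d < 1 := P.lLa

theorem Par.d_lt_one (P : Par) : P.d < 1 := by
  have := P.La_d
  nlinarith [P.La1, P.d_pos]

theorem BK.mono {C : MCl (M + 1)} {v g r e0 : ℕ} {b0 b1 : ℝ} (h : b1 ≤ b0) {S : Sp}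
    {s : MSys S (M + 1) (lin g) (Fin r)} {R : Rsl S} (hb : BK C v g r e0 b0 S s R) : BK C v g r e0 b1 S s R :=
  ⟨hb.cl, hb.dim, hb.pol, hb.stb, fun T q A hA c h0 h1 => hb.rig T q A hA c h0 (h1.trans_le h)⟩

theorem LL.tot (hN : NUMX M) {C : MCl (M + 1)} {g r e0 : ℕ} {P : Par} {a : ℕ → ℝ} {W : ℝ} (ha : Spd M a W) {S : Sp}
    {s : MSys S (M + 1) (lin g) (Fin r)} {R : Rsl S} (h : LL C v g r e0 P a S s R) {c : ℝ} (h0 : 0 ≤ c)
    (hl : c < P.l) : tot s R c = W * c := by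
  rw [← hN.last, h.num c h0 hl (M + 1) le_rfl, ha.tot]

/-- `LL` is closed under truncations with `e * La ≤ 1` -/
theorem ll_trn (hT : TRNX M) (hN : NUMX M) (hc : Ctx M A C v) {m g r e0 : ℕ} {P : Par} {a : ℕ → ℝ} {W : ℝ}
    (ha : Spd M a W) (hW : W ≤ P.La) {S : Sp} {s : MSys S (M + 1) (lin g) (Fin r)} {R : Rsl S}
    (h : LL (C m) v g r e0 P a S s R) {e : ℝ} (he : 0 < e) (h1 : e ≤ 1) (heL : e * P.La ≤ 1) :
    LL (C m) v g r e0 P a (S.chg S.tr e he) (s.trn e he h1) R := by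
  have hd := P.La_d
  have hd0 := P.d_pos
  have hld := P.l_le_d
  have hx : ∀ b : ℝ, 0 ≤ b → b < P.d → e * b < P.l ∧ tot s R (e * b) < e := by
    intro b hb hbl
    have h2 : e * b < P.l := by
      have h3 : e * P.d ≤ P.l := by
        unfold Par.d
        nlinarith [P.l0]
      nlinarith
    refine ⟨h2, ?_⟩
    rw [h.tot hN ha (by positivity) h2]
    have h3 : W * b < 1 := by
      have h4 : W * b ≤ P.La * b := by nlinarith
      nlinarith [P.La1]
    nlinarith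
  obtain ⟨hb, hn, ht⟩ := hT A C v hc m g r e0 P.l S s R h.ke.bk e he h1 P.d hd0 P.d_lt_one.le hx
  have hnum : ∀ c : ℝ, 0 ≤ c → c < P.l → ∀ (j : ℕ) (hj : j ≤ M + 1), num (s.trn e he h1) R hj c = a j * c := by
    intro c h0 hcl j hj
    rw [hn c h0 (hcl.trans_le hld) j hj, h.num _ (by positivity) (hx c h0 (hcl.trans_le hld)).1 j hj]
    field_simp
  refine ⟨⟨hb.mono hld, ?_, ?_⟩, hnum⟩
  · intro c c' h0 hcc hl
    rw [← hN.last, ← hN.last, hnum c h0 (hcc.trans_lt hl) _ le_rfl, hnum c' (h0.trans hcc) hl _ le_rfl, ha.tot]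
    nlinarith
  · have h3 := ht P.ρ 0 le_rfl fun T q B hB x y hx0 hxy hy => h.ke.top T q B hB x y hx0 hxy (hy.trans (by nlinarith))
    rw [zero_div] at h3
    exact h3

/-- `LL` is closed under zooms in flag rows: the top exponent plus `e` is at most one (by frames: `w_max c + e ≤ 1`) and
`c + e d ≤ l` -/
theorem ll_zoom {gb : ℕ → ℕ → ℝ → ℕ} (hZ : ZOOMX M gb) (hF : TOPF M) (hN : NUMX M) (hc : Ctx M A C v)
    {m g r e0 : ℕ} {P : Par} {a : ℕ → ℝ} {W : ℝ} (ha : Spd M a W) (hW : W ≤ P.La) {S : Sp}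
    {s : MSys S (M + 1) (lin g) (Fin r)} {R : Rsl S} (h : LL (C m) v g r e0 P a S s R) {c e : ℝ} (h0 : 0 < c)
    (he : 0 < e) (h1 : TopG s R c e) (h2 : c + e * P.d ≤ P.l)
    {La : ℝ} (hL : W * c + e ≤ La * c) :
    ∃ (z : RW s (M + 1)) (V : Rsl S), z.Z.l = Lab.ofZ V ∧ z.Z.c = c ∧ z.Z.u = e ∧ z.κ = gb r e0 La ∧
      KLb s R c z.Z.l ∧ Flg z (fun j => (a (j + 1) - a j) * c) ∧
      LL (C m) v z.κ r e0 P a z.Z.sp z.sys (rover z.Z.l z.Z.u z.Z.hu R) := by
  have hd := P.La_d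
  have hd0 := P.d_pos
  have hld := P.l_le_d
  have hcl : c < P.l := by nlinarith [mul_pos he hd0]
  have hlm : lmd s R c = fun j : Fin (M + 1) => (a (j + 1) - a j) * c := by
    funext j
    unfold lmd
    rw [h.num c h0.le hcl _ (Nat.succ_le_of_lt j.2), h.num c h0.le hcl _ j.2.le]
    ring
  have hx : ∀ b : ℝ, 0 ≤ b → b < P.d → c + e * b < P.l ∧ tot s R (c + e * b) < tot s R c + e := by
    intro b hb hbl
    have h3 : c + e * b < P.l := by
      have : e * b < e * P.d := by nlinarith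
      nlinarith
    refine ⟨h3, ?_⟩
    rw [h.tot hN ha (by positivity) h3, h.tot hN ha h0.le hcl]
    have h4 : W * b < 1 := by
      have h5 : W * b ≤ P.La * b := by nlinarith
      nlinarith [P.La1]
    nlinarith
  obtain ⟨D1, hD1⟩ := hZ A C v hc m g r e0 La
  obtain ⟨z, V, hV, hzc, hzu, hκ, -, hK, hFl, hb, hn⟩ := hD1 P.l S s R h.ke.bk c e P.d h0 he hd0 P.d_lt_one.le
    (by rw [h.tot hN ha h0.le hcl]; exact hL) h1 hx
  have hnum : ∀ b : ℝ, 0 ≤ b → b < P.l → ∀ (j : ℕ) (hj : j ≤ M + 1),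
      num z.sys (rover z.Z.l z.Z.u z.Z.hu R) hj b = a j * b := by
    intro b hb hbl j hj
    rw [hn b hb (hbl.trans_le hld) j hj, h.num _ (by positivity) (hx b hb (hbl.trans_le hld)).1 j hj,
      h.num c h0.le hcl j hj]
    field_simp
    ring
  refine ⟨z, V, hV, hzc, hzu, hκ, hK, hlm ▸ hFl, ⟨⟨hb.mono hld, ?_, ?_⟩, hnum⟩⟩
  · intro x x' h0 hcc hl
    rw [← hN.last, ← hN.last, hnum x h0 (hcc.trans_lt hl) _ le_rfl, hnum x' (h0.trans hcc) hl _ le_rfl, ha.tot]
    nlinarith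
  · have h5 := hF A C v hc m g r e0 P.l S s R h.ke.bk P.ρ c e P.d h0 he hd0 P.d_lt_one.le hx z ⟨V, hV⟩ hb.cl.2.1 hzc hzu
      hK hFl 0
      le_rfl fun T q B hB x y hx0 hxy hy => by
        refine h.ke.top T q B hB x y hx0 hxy (hy.trans ?_)
        rw [hlm]
        have h6 : (a (M + 1) - a M) * c ≤ P.La * c := by
          have h7 : 0 ≤ a M := by
            have h8 : ∀ j, j ≤ M → 0 ≤ a j := by
              intro j
              induction j with
              | zero => intro _; rw [ha.zero]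
              | succ j ih =>
                intro hj
                have h9 := ha.step j (Nat.le_of_succ_le hj)
                have h10 := ih (Nat.le_of_succ_le hj)
                linarith
            exact h8 M le_rfl
          have h8 := ha.tot
          nlinarith
        have h7 : P.La * c + e * P.d ≤ P.d := by
          have h8 : P.La * (c + e * P.d) ≤ P.La * P.l := mul_le_mul_of_nonneg_left h2 (by linarith [P.La1])
          have h9 : P.La * P.l = P.d := rfl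
          have h10 : e * P.d ≤ P.La * (e * P.d) := by nlinarith [P.La1, mul_pos he hd0]
          nlinarith
        show (a (M + 1) - a M) * c + e * P.d ≤ P.d
        linarith
    rw [zero_div] at h5
    exact h5

/-- THE JOINT -/
theorem jnt {gb : ℕ → ℕ → ℝ → ℕ} (h1 : FIRST M) (h2 : SCN M gb) (h3 : MINW M gb) (h4 : ONEC M gb) (h5 : CORN M gb) :
    JNT M := by
  intro A C v hc hE hS
  obtain ⟨m, g, r, e0, ρ, w0, TT, hTT⟩ := h1 A C v hc hE hS
  obtain ⟨P, -, hk⟩ := h2 A C v hc m g r e0 ρ w0 TT hTT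
  obtain ⟨W, hW1, hW, hmn, hm⟩ := h3 A C v hc m r e0 P hk
  obtain ⟨a, ha, hL⟩ := h4 A C v hc m r e0 P W hW1 hW hm
  refine ⟨m, _, r, e0, P, W, a, hW, ha, ?_, hL⟩
  intro g' b0 S' s' R' hb c w hc0 hcb hc1 hl ht hT hd hw
  obtain ⟨S'', t, R'', hK, hn⟩ := h5 A C v hc m g' r e0 b0 (P.La + 1) P S' s' R' hb c w (fun _ => 0) ∅ hc0 hcb hc1 hl
    (by nlinarith) hT hd hw (fun j hj => hj.elim)
  exact hmn S'' t R'' w hK fun b hb hbl => (hn b hb hbl).1

end

end Pool.Agent.Helper94.SEL
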