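import Pool.Agent.Helper94.SEL.St
import Pool.Agent.Helper84.MT.Fis

/-! The exponents of flag rows with the unit `u` are at most `1 - u`. -/

set_option autoImplicit false

namespace Pool.Agent.Helper94.SEL

open Finset Filter Topology Matrix Pool.Agent.Helper69.RK Pool.Agent.Helper31.EC Pool.Agent.Helper31.EC.Sp
open Pool.Agent.Helper40.EL Pool.Agent.Helper89.LX Pool.Agent.Helper84.MT
open Pool.Agent.Helper7.RD (RW)
open Pool.Agent.Helper29.MX

noncomputable section

variable {S : Sp} {M : ℕ} {E : ℕ → ℕ} {ι : Type}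

/-- the directional derivative of a polynomial from its values on a segment -/
theorem pderiv_seg (D : ℕ) : ∃ C : ℝ, 0 ≤ C ∧ ∀ (m : ℕ) (q : MvPolynomial (Fin m) ℝ), q.totalDegree ≤ D →
    ∀ (x : Fin m → ℝ) (j : Fin m) (t B : ℝ), 0 < t →
      (∀ y : Fin m → ℝ, (∀ i, |y i - x i| ≤ t) → |MvPolynomial.eval y q - MvPolynomial.eval x q| ≤ B) →
        |MvPolynomial.eval x (MvPolynomial.pderiv j q)| ≤ C * B / t := by
  classical
  obtain ⟨c, hc⟩ := deriv_interp D
  refine ⟨∑ k, |c k|, Finset.sum_nonneg fun k _ => abs_nonneg _, fun m q hq x j t B ht hB => ?_⟩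
  set e : Fin m → ℝ := fun i => if i = j then t else 0 with he
  set f : Polynomial ℝ := lnp x e q with hf
  have hfd : f.natDegree ≤ D := (lnp_deg x e q).trans hq
  have h0 : f.eval 0 = MvPolynomial.eval x q := by
    rw [hf, lnp_eval]
    congr 2
    funext i
    rw [zero_mul, add_zero]
  have h1 : (Polynomial.derivative f).eval 0 = t * MvPolynomial.eval x (MvPolynomial.pderiv j q) := by
    rw [hf, lnp_deriv, lnp_eval]
    have : (fun k => x k + 0 * e k) = x := by
      funext i
      rw [zero_mul, add_zero]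
    rw [this]
    unfold dir
    rw [map_sum, Finset.sum_eq_single j]
    · rw [map_mul, MvPolynomial.eval_C, he]
      simp
    · intro i _ hi
      rw [map_mul, MvPolynomial.eval_C, he]
      simp [hi]
    · intro h
      exact absurd (Finset.mem_univ j) h
  have h2 : (f - Polynomial.C (f.eval 0)).natDegree ≤ D := by
    refine (Polynomial.natDegree_sub_le _ _).trans (max_le hfd ?_)
    rw [Polynomial.natDegree_C]
    exact Nat.zero_le _
  have h3 := hc _ h2
  rw [Polynomial.derivative_sub, Polynomial.derivative_C, sub_zero, h1] at h3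
  have h4 : |t * MvPolynomial.eval x (MvPolynomial.pderiv j q)| ≤ (∑ k, |c k|) * B := by
    rw [h3, Finset.sum_mul]
    refine (Finset.abs_sum_le_sum_abs _ _).trans (Finset.sum_le_sum fun k _ => ?_)
    rw [abs_mul]
    refine mul_le_mul_of_nonneg_left ?_ (abs_nonneg _)
    rw [Polynomial.eval_sub, Polynomial.eval_C, h0, hf, lnp_eval]
    apply hB
    intro i
    rw [add_sub_cancel_left, he]
    have hk : ((k : ℕ) : ℝ) / ((D : ℝ) + 1) ≤ 1 := by
      rw [div_le_one (by positivity)]
      have : ((k : ℕ) : ℝ) < (D : ℝ) + 1 := by exact_mod_cast k.2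
      exact this.le
    have hk0 : 0 ≤ ((k : ℕ) : ℝ) / ((D : ℝ) + 1) := by positivity
    by_cases hi : i = j
    · simp only [hi, if_true]
      rw [abs_mul, abs_of_nonneg hk0, abs_of_pos ht]
      nlinarith
    · simp only [hi, if_false, mul_zero, abs_zero]
      exact ht.le
  rw [abs_mul, abs_of_pos ht] at h4
  rw [le_div_iff₀ ht, mul_comm]
  exact h4

/-- THE EXPONENTS OF FLAG ROWS with the unit `u` are at most `1 - u` -/
theorem flg_add_le {s : MSys S M E ι} {z : RW s M} {lam : Fin M → ℝ} (hf : Flg z lam) (j : Fin M) :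
    lam j + z.Z.u ≤ 1 := by
  by_contra hlt
  push Not at hlt
  set δ : ℝ := lam j + z.Z.u - 1 with hδ
  have hδ0 : 0 < δ := by linarith
  obtain ⟨C, hC, hpd⟩ := pderiv_seg z.D
  obtain ⟨K, hK, hT⟩ := z.R.lp (fun _ => 1) (S.Sub_const zero_le_one)
  have h1 := (hf.ex (δ / 2) (by linarith)).and hT
  have h2 : ∀ᶠ k in UF, C * K k < 2 ^ (δ / 2 * (S.F k).n) := by
    have h3 : S.Sub (fun k => C * K k) := (S.Sub_const hC).mul hK
    have h4 := h3.2.eventually (gt_mem_nhds (show (0 : ℝ) < δ / 2 by linarith))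
    filter_upwards [h4, h3.1] with k h5 h6
    have hn := (S.F k).pos
    rw [div_lt_iff₀ hn] at h5
    have h7 : C * K k + 2 < 2 ^ (δ / 2 * (S.F k).n) := by
      rwa [Real.logb_lt_iff_lt_rpow (by norm_num) (by linarith)] at h5
    linarith
  have h5 : Typ (S := z.Z.l.sp) (fun _ _ => False) := by
    refine h1.mono ?_
    filter_upwards [h2] with k h6 ω _ h7
    have hn := (S.F k).pos
    have h8 := hpd M (z.R.p k ω j) (z.R.deg k ω j) (s.Q.v k ((z.Z.l k).p.π ω)) j (S.dl 1 k) (K k * S.dl z.Z.u k)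
      (S.dl_pos 1 k) fun y hy => h7.2 y (fun i => by rw [one_mul]; exact hy i) j
    have h9 := (h7.1 j).1.trans h8
    have h10 : C * (K k * S.dl z.Z.u k) / S.dl 1 k = C * K k * 2 ^ ((1 - z.Z.u) * (S.F k).n) := by
      unfold Sp.dl
      rw [← mul_assoc, mul_div_assoc, ← Real.rpow_sub (by norm_num)]
      congr 2
      ring
    rw [h10] at h9
    have h11 : (2 : ℝ) ^ ((lam j - δ / 2) * (S.F k).n) = 2 ^ (δ / 2 * (S.F k).n) * 2 ^ ((1 - z.Z.u) * (S.F k).n) := by
      rw [← Real.rpow_add (by norm_num)]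
      congr 1
      rw [hδ]
      ring
    rw [h11] at h9
    have h12 : (0 : ℝ) < 2 ^ ((1 - z.Z.u) * (S.F k).n) := by positivity
    nlinarith
  unfold Typ at h5
  have h6 : ∀ k, mass (res (z.Z.l.sp.F k).μ (fun _ => ¬ False)) = 1 := by
    intro k
    have h7 : res (z.Z.l.sp.F k).μ (fun _ => ¬ False) = (z.Z.l.sp.F k).μ := by
      funext ω
      exact res_pos _ _ ω not_false
    rw [h7, (z.Z.l.sp.F k).ms]
  simp only [h6] at h5
  exact one_ne_zero (tendsto_nhds_unique tendsto_const_nhds h5)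

end

end Pool.Agent.Helper94.SEL
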