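import Pool.Agent.Helper77.MX.Good

/-! SELECTION, single system form (pure real analysis): in a class which is closed under corners and limits the least
speed of a monotone functional is attained, and every member of least speed is linear. -/

set_option autoImplicit false

namespace Pool.Agent.Helper94.SEL

open MeasureTheory Set Filter Topology

variable {K : Type*}

/-- a monotone function below `w s` whose derivative is almost everywhere at least `w` is linear -/
theorem lin_of {f : ℝ → ℝ} {b w : ℝ} (hm : MonotoneOn f (Icc 0 b)) (h0 : f 0 = 0)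
    (hub : ∀ s ∈ Icc (0 : ℝ) b, f s ≤ w * s) (hW : ∀ᵐ s ∂(volume.restrict (Ioo 0 b)), w ≤ deriv f s) :
    ∀ s ∈ Icc (0 : ℝ) b, f s = w * s := by
  intro s hs
  have h := Pool.Agent.Helper33.MX.lin_path (M := 1) (b := b) (W := w) (w := fun _ => w) (lam := fun _ => f)
    (fun _ => hm) (fun _ => h0) (fun _ => hub) (by simpa using hW) s hs
  have h1 := h.1
  simp only [Finset.univ_unique, Finset.sum_singleton] at h1
  exact le_antisymm (hub s hs) h1

/-- **one step of the selection** -/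
theorem step {L : K → Prop} {Gd : ℝ → K → Prop} {f : K → ℝ → ℝ} {cx : K → ℝ} {w₀ b : ℝ} (hb : 0 < b)
    (hm : ∀ x, L x → MonotoneOn (f x) (Icc 0 1)) (h0 : ∀ x, L x → f x 0 = 0)
    (hcx1 : ∀ x, L x → cx x ≤ 1)
    (hcxb : ∀ x, L x → (∀ s ∈ Icc (0 : ℝ) 1, f x s ≤ w₀ * s) → b ≤ cx x)
    (hne : ∃ w, w < w₀ ∧ ∃ x, L x ∧ ∀ s ∈ Icc (0 : ℝ) 1, f x s ≤ w * s)
    (hcorner : ∀ x, L x → (∀ s ∈ Icc (0 : ℝ) 1, f x s ≤ w₀ * s) →
      ∀ᵐ c ∂(volume.restrict (Ioo 0 (cx x))), ∃ y, L y ∧ (∀ s ∈ Icc (0 : ℝ) 1, f y s ≤ deriv (f x) c * s) ∧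
        ∀ V, (∀ u ∈ Ico 0 c, f x c - f x u ≤ V * (c - u)) → Gd V y)
    (hlim : ∀ (V : ℝ) (x : ℕ → K) (w : ℕ → ℝ) (w' : ℝ), (∀ j, L (x j)) → (∀ j, Gd V (x j)) →
      (∀ j, ∀ s ∈ Icc (0 : ℝ) 1, f (x j) s ≤ w j * s) → Tendsto w atTop (𝓝 w') →
      ∃ y, L y ∧ Gd V y ∧ ∀ s ∈ Icc (0 : ℝ) 1, f y s ≤ w' * s) :
    ∃ W, 0 ≤ W ∧ W < w₀ ∧ (∃ y, L y ∧ Gd (W + 1) y ∧ ∀ s ∈ Icc (0 : ℝ) 1, f y s ≤ W * s) ∧
      (∀ x, L x → ∀ w, (∀ s ∈ Icc (0 : ℝ) 1, f x s ≤ w * s) → W ≤ w) ∧
      ∀ x, L x → (∀ s ∈ Icc (0 : ℝ) 1, f x s ≤ W * s) → ∀ s ∈ Icc (0 : ℝ) (cx x), f x s = W * s := by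
  classical
  set A : Set ℝ := {w | ∃ x, L x ∧ ∀ s ∈ Icc (0 : ℝ) 1, f x s ≤ w * s} with hA
  obtain ⟨w₁, hw₁, x₁, hx₁, hf₁⟩ := hne
  have hAne : A.Nonempty := ⟨w₁, x₁, hx₁, hf₁⟩
  have hpos : ∀ x, L x → 0 ≤ f x 1 := fun x hx => by
    have h := hm x hx (left_mem_Icc.mpr zero_le_one) (right_mem_Icc.mpr zero_le_one) zero_le_one
    rwa [h0 x hx] at h
  have hAb : ∀ w ∈ A, 0 ≤ w := by
    rintro w ⟨x, hx, hf⟩
    have h1 := hf 1 (right_mem_Icc.mpr zero_le_one)
    have h2 := hpos x hx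
    linarith
  have hbdd : BddBelow A := ⟨0, hAb⟩
  set W := sInf A with hW
  have hW0 : 0 ≤ W := le_csInf hAne hAb
  have hWle : ∀ w ∈ A, W ≤ w := fun w hw => csInf_le hbdd hw
  have hWw : W < w₀ := (hWle w₁ ⟨x₁, hx₁, hf₁⟩).trans_lt hw₁
  -- the speed of a member
  have hspeed : ∀ x, L x → (∀ s ∈ Icc (0 : ℝ) 1, f x s ≤ w₀ * s) →
      ∀ᵐ c ∂(volume.restrict (Ioo 0 (cx x))), W ≤ deriv (f x) c := by
    intro x hx hf
    filter_upwards [hcorner x hx hf] with c hc
    obtain ⟨y, hy, hfy, -⟩ := hc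
    exact hWle _ ⟨y, hy, hfy⟩
  refine ⟨W, hW0, hWw, ?_, fun x hx w hw => hWle w ⟨x, hx, hw⟩, ?_⟩
  · -- near minimal members
    have hy : ∀ j : ℕ, ∃ y, L y ∧ Gd (W + 1) y ∧ ∀ s ∈ Icc (0 : ℝ) 1, f y s ≤ (W + 1 / (j + 3)) * s := by
      intro j
      set e : ℝ := 1 / (j + 3) with he
      have hj : (0 : ℝ) ≤ j := Nat.cast_nonneg j
      have he0 : 0 < e := by positivity
      have he3 : e ≤ 1 / 3 := by
        rw [he]
        apply one_div_le_one_div_of_le (by norm_num)
        linarith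
      have he1 : e + e * e < 1 := by nlinarith
      -- a member with speed close to W
      obtain ⟨w, ⟨x, hx, hf⟩, hw⟩ : ∃ w ∈ A, w < min (W + e * e) w₀ :=
        exists_lt_of_csInf_lt hAne (lt_min (by nlinarith) hWw)
      have hwe : w < W + e * e := hw.trans_le (min_le_left _ _)
      have hww : w < w₀ := hw.trans_le (min_le_right _ _)
      have hf0 : ∀ s ∈ Icc (0 : ℝ) 1, f x s ≤ w₀ * s := fun s hs =>
        (hf s hs).trans (mul_le_mul_of_nonneg_right hww.le hs.1)
      have hbc : b ≤ cx x := hcxb x hx hf0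
      have hb1 : b ≤ 1 := hbc.trans (hcx1 x hx)
      have hIcc : Icc (0 : ℝ) b ⊆ Icc 0 1 := Icc_subset_Icc_right hb1
      have hsp := hspeed x hx hf0
      have hco := hcorner x hx hf0
      have hle : volume.restrict (Ioo (0 : ℝ) b) ≤ volume.restrict (Ioo 0 (cx x)) :=
        Measure.restrict_mono (Ioo_subset_Ioo_right hbc) le_rfl
      have hsp' : ∀ᵐ s ∂(volume.restrict (Ioo 0 b)), W ≤ ∑ _k : Fin 1, deriv (f x) s := by
        filter_upwards [ae_mono hle hsp] with s hs
        simpa using hs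
      obtain ⟨c, hc, hcA, -, hcd, hcu⟩ := Pool.Agent.Helper77.MX.exists_good (M := 1) (b := b) (W := W) (e := e) hb he0 he1
        (lam := fun _ => f x) (fun _ => (hm x hx).mono hIcc) hsp'
        (by
          simp only [Finset.univ_unique, Finset.sum_singleton]
          rw [h0 x hx, sub_zero]
          refine (hf b ⟨hb.le, hb1⟩).trans ?_
          exact mul_le_mul_of_nonneg_right hwe.le hb.le)
        (A := {c | ∃ y, L y ∧ (∀ s ∈ Icc (0 : ℝ) 1, f y s ≤ deriv (f x) c * s) ∧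
          ∀ V, (∀ u ∈ Ico 0 c, f x c - f x u ≤ V * (c - u)) → Gd V y}) (ae_mono hle hco)
      simp only [Finset.univ_unique, Finset.sum_singleton] at hcd hcu
      obtain ⟨y, hy, hfy, hGy⟩ := hcA
      refine ⟨y, hy, hGy _ hcu, fun s hs => (hfy s hs).trans ?_⟩
      exact mul_le_mul_of_nonneg_right hcd hs.1
    choose y hy hGy hfy using hy
    have ht : Tendsto (fun j : ℕ => W + 1 / ((j : ℝ) + 3)) atTop (𝓝 W) := by
      have h1 : Tendsto (fun j : ℕ => 1 / ((j : ℝ) + 3)) atTop (𝓝 0) := by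
        have h2 : Tendsto (fun j : ℕ => (j : ℝ) + 3) atTop atTop :=
          tendsto_atTop_add_const_right _ _ tendsto_natCast_atTop_atTop
        simp only [one_div]
        exact tendsto_inv_atTop_zero.comp h2
      simpa using tendsto_const_nhds.add h1
    exact hlim (W + 1) y _ W hy hGy hfy ht
  · intro x hx hf
    have hf0 : ∀ s ∈ Icc (0 : ℝ) 1, f x s ≤ w₀ * s := fun s hs =>
      (hf s hs).trans (mul_le_mul_of_nonneg_right hWw.le hs.1)
    have hsub : Icc (0 : ℝ) (cx x) ⊆ Icc 0 1 := Icc_subset_Icc_right (hcx1 x hx)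
    exact lin_of ((hm x hx).mono hsub) (h0 x hx) (fun s hs => hf s (hsub hs)) (hspeed x hx hf0)

/-- **THE SELECTION**: functionals `F x 0` (the total), `F x 1`, .. ; the least speeds are attained one after the other in
a class of bounded degree, and every member of least speeds is linear -/
theorem select_all {G : K → ℕ} {gb : ℝ → ℕ} {F : K → ℕ → ℝ → ℝ} {cx : K → ℝ} {bw : ℝ → ℝ}
    (hm : ∀ x i, MonotoneOn (F x i) (Icc 0 1)) (h0 : ∀ x i, F x i 0 = 0)
    (hle : ∀ x i, ∀ s ∈ Icc (0 : ℝ) 1, F x i s ≤ F x 0 s)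
    (hcx1 : ∀ x, cx x ≤ 1) (hbw : ∀ w, 0 < bw w)
    (hcxb : ∀ x w, (∀ s ∈ Icc (0 : ℝ) 1, F x 0 s ≤ w * s) → bw w ≤ cx x)
    (hne : ∃ x w, ∀ s ∈ Icc (0 : ℝ) 1, F x 0 s ≤ w * s)
    (hcorner : ∀ x w, (∀ s ∈ Icc (0 : ℝ) 1, F x 0 s ≤ w * s) →
      ∀ᵐ c ∂(volume.restrict (Ioo 0 (cx x))), ∃ y, (∀ i, ∀ s ∈ Icc (0 : ℝ) 1, F y i s ≤ deriv (F x i) c * s) ∧
        ∀ V, (∀ u ∈ Ico 0 c, F x 0 c - F x 0 u ≤ V * (c - u)) → G y ≤ gb V)
    (hlim : ∀ (g : ℕ) (x : ℕ → K) (w : ℕ → ℕ → ℝ) (w' : ℕ → ℝ), (∀ j, G (x j) ≤ g) →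
      (∀ j i, ∀ s ∈ Icc (0 : ℝ) 1, F (x j) i s ≤ w j i * s) → (∀ i, Tendsto (fun j => w j i) atTop (𝓝 (w' i))) →
      ∃ y, G y ≤ g ∧ ∀ i, ∀ s ∈ Icc (0 : ℝ) 1, F y i s ≤ w' i * s) (N : ℕ) :
    ∃ (g : ℕ) (w : ℕ → ℝ), (∃ x, G x ≤ g ∧ ∀ i, i ≤ N → ∀ s ∈ Icc (0 : ℝ) 1, F x i s ≤ w i * s) ∧
      (∀ n, n ≤ N → ∀ x v, (∀ i, i < n → ∀ s ∈ Icc (0 : ℝ) 1, F x i s ≤ w i * s) →
        (∀ s ∈ Icc (0 : ℝ) 1, F x n s ≤ v * s) → w n ≤ v) ∧
      ∀ x n, n ≤ N → (∀ i, i ≤ n → ∀ s ∈ Icc (0 : ℝ) 1, F x i s ≤ w i * s) →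
        ∀ i, i ≤ n → ∀ s ∈ Icc (0 : ℝ) (cx x), F x i s = w i * s := by
  classical
  -- the total
  obtain ⟨x₁, w₁, hx₁⟩ := hne
  obtain ⟨W, hW0, hWw, ⟨y₀, -, hy₀G, hy₀⟩, hWmin, hWlin⟩ :=
    step (L := fun _ : K => True) (Gd := fun V x => G x ≤ gb V) (f := fun x => F x 0) (cx := cx) (w₀ := w₁ + 1)
    (b := bw (w₁ + 1)) (hbw _) (fun x _ => hm x 0) (fun x _ => h0 x 0) (fun x _ => hcx1 x) (fun x _ h => hcxb x _ h)
    ⟨w₁, by linarith, x₁, trivial, hx₁⟩
    (fun x _ hx => by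
      filter_upwards [hcorner x _ hx] with c hc
      obtain ⟨y, hy, hG⟩ := hc
      exact ⟨y, trivial, hy 0, hG⟩)
    (fun V x w w' _ hG hx hw => by
      obtain ⟨y, hy, hy'⟩ := hlim (gb V) x (fun j _ => w j) (fun _ => w') hG
        (fun j i s hs => (hle _ i s hs).trans (hx j s hs)) (fun _ => hw)
      exact ⟨y, trivial, hy, hy' 0⟩)
  set g := gb (W + 1) with hg
  -- members of least total speed
  have hmain : ∀ N : ℕ, ∃ w : ℕ → ℝ, w 0 = W ∧
      (∃ x, G x ≤ g ∧ ∀ i, i ≤ N → ∀ s ∈ Icc (0 : ℝ) 1, F x i s ≤ w i * s) ∧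
      (∀ n, n ≤ N → ∀ x v, (∀ i, i < n → ∀ s ∈ Icc (0 : ℝ) 1, F x i s ≤ w i * s) →
        (∀ s ∈ Icc (0 : ℝ) 1, F x n s ≤ v * s) → w n ≤ v) ∧
      ∀ x n, n ≤ N → (∀ i, i ≤ n → ∀ s ∈ Icc (0 : ℝ) 1, F x i s ≤ w i * s) →
        ∀ i, i ≤ n → ∀ s ∈ Icc (0 : ℝ) (cx x), F x i s = w i * s := by
    intro N
    induction N with
    | zero =>
      refine ⟨fun _ => W, rfl, ⟨y₀, hy₀G, fun i hi s hs => ?_⟩, fun n hn x v _ hv => ?_, fun x n hn hx i hi s hs => ?_⟩
      · obtain rfl : i = 0 := by omega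
        exact hy₀ s hs
      · obtain rfl : n = 0 := by omega
        exact hWmin x trivial v hv
      · obtain rfl : i = 0 := by omega
        exact hWlin x trivial (fun s hs => hx 0 (Nat.zero_le _) s hs) s hs
    | succ N ih =>
      obtain ⟨w, hw0, ⟨x₂, hx₂G, hx₂⟩, hmin, hlin⟩ := ih
      set L : K → Prop := fun x => ∀ i, i ≤ N → ∀ s ∈ Icc (0 : ℝ) 1, F x i s ≤ w i * s with hL
      have hLW : ∀ x, L x → ∀ s ∈ Icc (0 : ℝ) 1, F x 0 s ≤ W * s := fun x hx s hs => by
        have := hx 0 (Nat.zero_le _) s hs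
        rwa [hw0] at this
      obtain ⟨U, hU0, hUw, ⟨y, hyL, hyG, hy⟩, hUmin, hUlin⟩ :=
        step (L := L) (Gd := fun _ x => G x ≤ g) (f := fun x => F x (N + 1)) (cx := cx) (w₀ := W + 1)
        (b := bw W) (hbw _) (fun x _ => hm x _) (fun x _ => h0 x _) (fun x _ => hcx1 x)
        (fun x hx _ => hcxb x _ (hLW x hx))
        ⟨W, by linarith, x₂, hx₂, fun s hs => (hle _ _ s hs).trans (hLW x₂ hx₂ s hs)⟩
        (fun x hx _ => by
          filter_upwards [hcorner x _ (hLW x hx), ae_restrict_mem measurableSet_Ioo] with c hc hcI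
          obtain ⟨y, hy, hG⟩ := hc
          have hd : ∀ i, i ≤ N → deriv (F x i) c = w i := by
            intro i hi
            have h1 : F x i =ᶠ[𝓝 c] fun s => w i * s := by
              filter_upwards [Icc_mem_nhds hcI.1 hcI.2] with s hs
              exact hlin x N le_rfl hx i hi s hs
            rw [h1.deriv_eq]
            simp
          refine ⟨y, fun i hi s hs => ?_, hy (N + 1), fun V _ => hG _ fun u hu => ?_⟩
          · have := hy i s hs
            rwa [hd i hi] at this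
          · have hc' : c ∈ Icc (0 : ℝ) (cx x) := ⟨hcI.1.le, hcI.2.le⟩
            have hu' : u ∈ Icc (0 : ℝ) (cx x) := ⟨hu.1, hu.2.le.trans hcI.2.le⟩
            rw [hlin x N le_rfl hx 0 (Nat.zero_le _) c hc', hlin x N le_rfl hx 0 (Nat.zero_le _) u hu', hw0]
            nlinarith [hu.2])
        (fun V x v v' hxL hG hx hv => by
          obtain ⟨y, hy, hy'⟩ := hlim g x (fun j i => if i ≤ N then w i else if i = N + 1 then v j else W)
            (fun i => if i ≤ N then w i else if i = N + 1 then v' else W) hG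
            (fun j i s hs => by
              by_cases h1 : i ≤ N
              · simp only [h1, if_true]
                exact hxL j i h1 s hs
              · by_cases h2 : i = N + 1
                · rw [if_neg h1, if_pos h2, h2]
                  exact hx j s hs
                · simp only [h1, h2, if_false]
                  exact (hle _ i s hs).trans (hLW _ (hxL j) s hs))
            (fun i => by
              by_cases h1 : i ≤ N
              · simp only [h1, if_true]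
                exact tendsto_const_nhds
              · by_cases h2 : i = N + 1
                · subst h2
                  simp only [h1, if_false, if_true]
                  exact hv
                · simp only [h1, h2, if_false]
                  exact tendsto_const_nhds)
          refine ⟨y, fun i hi s hs => ?_, hy, fun s hs => ?_⟩
          · have := hy' i s hs
            simpa only [hi, if_true] using this
          · have := hy' (N + 1) s hs
            rw [if_neg (by omega), if_pos rfl] at this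
            exact this)
      refine ⟨Function.update w (N + 1) U, ?_, ⟨y, hyG, fun i hi s hs => ?_⟩, fun n hn x v hx hv => ?_,
        fun x n hn hx i hi s hs => ?_⟩
      · rw [Function.update_of_ne (by omega)]
        exact hw0
      · rcases Nat.lt_or_ge i (N + 1) with h | h
        · rw [Function.update_of_ne (by omega)]
          exact hyL i (by omega) s hs
        · obtain rfl : i = N + 1 := by omega
          rw [Function.update_self]
          exact hy s hs
      · rcases Nat.lt_or_ge n (N + 1) with h | h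
        · rw [Function.update_of_ne (by omega)]
          refine hmin n (by omega) x v (fun i hi s hs => ?_) hv
          have := hx i hi s hs
          rwa [Function.update_of_ne (by omega)] at this
        · obtain rfl : n = N + 1 := by omega
          rw [Function.update_self]
          refine hUmin x (fun i hi s hs => ?_) v hv
          have := hx i (by omega) s hs
          rwa [Function.update_of_ne (by omega)] at this
      · have hx' : ∀ m, m ≤ N → m ≤ n → ∀ s ∈ Icc (0 : ℝ) 1, F x m s ≤ w m * s := by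
          intro m hm1 hm2 s hs
          have := hx m hm2 s hs
          rwa [Function.update_of_ne (by omega)] at this
        rcases Nat.lt_or_ge i (N + 1) with h | h
        · rw [Function.update_of_ne (by omega)]
          exact hlin x (min n N) (min_le_right _ _)
            (fun m hm => hx' m (hm.trans (min_le_right _ _)) (hm.trans (min_le_left _ _))) i
            (le_min hi (by omega)) s hs
        · obtain rfl : i = N + 1 := by omega
          obtain rfl : n = N + 1 := by omega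
          rw [Function.update_self]
          refine hUlin x (fun m hm => hx' m hm (by omega)) (fun s hs => ?_) s hs
          have := hx (N + 1) le_rfl s hs
          rwa [Function.update_self] at this
  obtain ⟨w, hw0, hx, hmin, hlin⟩ := hmain N
  exact ⟨g, w, hx, hmin, hlin⟩

/-- **THE EXCHANGE ARGUMENT**: `F x i` = exponent of a prefix of the coordinates, the prefixes get shorter with `i`; if
`x'` (two neighbouring coordinates exchanged) has the same longer prefixes and the supermodular bound for the prefix `n`,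
the minimality of `w n` gives convexity at `n`, i.e. the two weights are in the right order -/
theorem exchange {F : K → ℕ → ℝ → ℝ} {w : ℕ → ℝ} {n : ℕ} {b : ℝ} (hb : 0 < b)
    (hmin : ∀ x v, (∀ i, i < n → ∀ s ∈ Icc (0 : ℝ) 1, F x i s ≤ w i * s) →
      (∀ s ∈ Icc (0 : ℝ) 1, F x n s ≤ v * s) → w n ≤ v)
    {x x' : K} (hx : ∀ i, i ≤ n + 1 → F x i b = w i * b) (hx2 : ∀ i, i < n → ∀ s ∈ Icc (0 : ℝ) b, F x i s = w i * s)
    (h' : ∀ i, i < n → ∀ s ∈ Icc (0 : ℝ) b, F x' i s = F x i s)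
    (hn' : F x' n b ≤ F x (n - 1) b - F x n b + F x (n + 1) b)
    (hm : MonotoneOn (F x' n) (Icc 0 b)) (h0 : F x' n 0 = 0)
    (hcorner : ∀ᵐ c ∂(volume.restrict (Ioo 0 b)), ∃ y, ∀ i, ∀ s ∈ Icc (0 : ℝ) 1, F y i s ≤ deriv (F x' i) c * s) :
    w n ≤ w (n - 1) - w n + w (n + 1) := by
  have hd : ∀ᵐ c ∂(volume.restrict (Ioo 0 b)), w n ≤ deriv (F x' n) c := by
    filter_upwards [hcorner, ae_restrict_mem measurableSet_Ioo] with c hc hcI
    obtain ⟨y, hy⟩ := hc
    refine hmin y _ (fun i hi s hs => ?_) (hy n)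
    have h1 : F x' i =ᶠ[𝓝 c] fun s => w i * s := by
      filter_upwards [Icc_mem_nhds hcI.1 hcI.2] with s hs
      rw [h' i hi s hs, hx2 i hi s hs]
    have h2 := hy i s hs
    rw [h1.deriv_eq] at h2
    simpa using h2
  have h1 := Pool.Agent.Helper33.MX.int_deriv_le hb.le hm
  have h2 : w n * b ≤ ∫ u in (0:ℝ)..b, deriv (F x' n) u := by
    have e1 : ∫ _ in (0:ℝ)..b, w n = w n * b := by simp [mul_comm]
    rw [← e1]
    apply intervalIntegral.integral_mono_ae_restrict hb.le (by simp) h1.1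
    have h4 : volume.restrict (Icc 0 b) = volume.restrict (Ioo (0:ℝ) b) :=
      (Measure.restrict_congr_set Ioo_ae_eq_Icc).symm
    rw [h4]
    exact hd
  have h3 := h1.2
  rw [h0, sub_zero] at h3
  rw [hx n (by omega), hx (n + 1) le_rfl, hx (n - 1) (by omega)] at hn'
  have h4 : w n * b ≤ (w (n - 1) - w n + w (n + 1)) * b := by linarith
  exact le_of_mul_le_mul_right h4 hb

end Pool.Agent.Helper94.SEL
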