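import Pool.Agent.Helper94.SEL.Abs

/-! SELECTION, assembly (pure real analysis): members `x` with exponents `A x j` of the prefixes of the coordinates
(`A x N` = total), closed under corners, limits and exchanges of neighbouring coordinates. The least speeds `a j` are
attained, they are convex in `j` (sorted weights), and the members of least speeds are linear. -/

set_option autoImplicit false

namespace Pool.Agent.Helper94.SEL

open MeasureTheory Set Filter Topology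

variable {K : Type*}

/-- the first window where the total reaches `l` -/
noncomputable def cxx (l : ℝ) (f : ℝ → ℝ) : ℝ := sSup {c | c ∈ Icc (0 : ℝ) 1 ∧ f c < l}

theorem cxx_le_one {l : ℝ} (hl : 0 < l) {f : ℝ → ℝ} (h0 : f 0 = 0) : cxx l f ≤ 1 :=
  csSup_le ⟨0, ⟨le_rfl, zero_le_one⟩, by rw [h0]; exact hl⟩ fun _ hc => hc.1.2

theorem cxx_bdd (l : ℝ) (f : ℝ → ℝ) : BddAbove {c | c ∈ Icc (0 : ℝ) 1 ∧ f c < l} := ⟨1, fun _ hc => hc.1.2⟩

theorem le_cxx {l : ℝ} {f : ℝ → ℝ} {s : ℝ} (hs : s ∈ Icc (0 : ℝ) 1) (h : f s < l) : s ≤ cxx l f :=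
  le_csSup (cxx_bdd l f) ⟨hs, h⟩

theorem lt_of_lt_cxx {l : ℝ} (hl : 0 < l) {f : ℝ → ℝ} (hm : MonotoneOn f (Icc 0 1)) (h0 : f 0 = 0) {s : ℝ} (hs : 0 ≤ s)
    (h : s < cxx l f) : f s < l := by
  have hne : {c | c ∈ Icc (0 : ℝ) 1 ∧ f c < l}.Nonempty :=
    ⟨0, ⟨le_rfl, zero_le_one⟩, by rw [h0]; exact hl⟩
  obtain ⟨c, hc, hsc⟩ := exists_lt_of_lt_csSup hne h
  exact (hm ⟨hs, hsc.le.trans hc.1.2⟩ hc.1 hsc.le).trans_lt hc.2

/-- **THE SELECTION, ASSEMBLED**: `A x j` = exponent of the prefix of length `j`, capped at `l`; the coordinates of the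
positions `1 .. N - 2` may be exchanged with their neighbours below `N - 1` -/
theorem sel_main {G : K → ℕ} {A : K → ℕ → ℝ → ℝ} {N g₀ : ℕ} {l : ℝ} (hl : 0 < l) (hN : 1 ≤ N)
    (hm : ∀ x j, j ≤ N → MonotoneOn (A x j) (Icc 0 1)) (h0 : ∀ x j, j ≤ N → A x j 0 = 0)
    (hz : ∀ x s, A x 0 s = 0)
    (hle : ∀ x j, j ≤ N → ∀ s ∈ Icc (0 : ℝ) 1, A x j s ≤ A x N s)
    (hge : ∀ x j, j + 1 ≤ N → ∀ s ∈ Icc (0 : ℝ) 1, A x N s < l → A x j s + s ≤ A x (j + 1) s)
    (hone : ∀ x, ∀ s ∈ Icc (0 : ℝ) 1, A x N s < l → A x 1 s = s)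
    (hne : ∃ x w, ∀ s ∈ Icc (0 : ℝ) 1, min (A x N s) l ≤ w * s)
    (hcorner : ∀ x, ∀ᵐ c ∂(volume.restrict (Ioo 0 (cxx l (A x N)))), ∃ y, G y ≤ g₀ ∧
      ∀ j, j ≤ N → ∀ s ∈ Icc (0 : ℝ) 1, min (A y j s) l ≤ deriv (A x j) c * s)
    (hlim : ∀ (g : ℕ) (x : ℕ → K) (w : ℕ → ℕ → ℝ) (w' : ℕ → ℝ), (∀ k, G (x k) ≤ g) →
      (∀ k j, j ≤ N → ∀ s ∈ Icc (0 : ℝ) 1, min (A (x k) j s) l ≤ w k j * s) →
      (∀ j, j ≤ N → Tendsto (fun k => w k j) atTop (𝓝 (w' j))) →
      ∃ y, G y ≤ g ∧ ∀ j, j ≤ N → ∀ s ∈ Icc (0 : ℝ) 1, min (A y j s) l ≤ w' j * s)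
    (hswap : ∀ x n, 1 ≤ n → n + 2 ≤ N → ∃ y, (∀ j, j ≤ N → j ≠ n → ∀ s ∈ Icc (0 : ℝ) 1, A y j s = A x j s) ∧
      ∀ s ∈ Icc (0 : ℝ) 1, A x N s < l → A y n s + A x n s ≤ A x (n - 1) s + A x (n + 1) s) :
    ∃ (g : ℕ) (a : ℕ → ℝ), a 0 = 0 ∧ a 1 = 1 ∧ (∀ n, n + 1 ≤ N → a n + 1 ≤ a (n + 1)) ∧
      (∀ n, 1 ≤ n → n + 2 ≤ N → a n - a (n - 1) ≤ a (n + 1) - a n) ∧
      (∃ x, G x ≤ g ∧ ∀ j, j ≤ N → ∀ s ∈ Icc (0 : ℝ) 1, min (A x j s) l ≤ a j * s) ∧
      (∀ x v, (∀ s ∈ Icc (0 : ℝ) 1, min (A x N s) l ≤ v * s) → a N ≤ v) ∧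
      ∀ x, (∀ j, j ≤ N → ∀ s ∈ Icc (0 : ℝ) 1, min (A x j s) l ≤ a j * s) →
        ∀ j, j ≤ N → ∀ s ∈ Icc (0 : ℝ) 1, a N * s < l → A x j s = a j * s := by
  classical
  set F : K → ℕ → ℝ → ℝ := fun x i s => min (A x (N - i) s) l with hF
  set cx : K → ℝ := fun x => cxx l (A x N) with hcx
  have hF0 : ∀ x s, F x 0 s = min (A x N s) l := fun x s => by simp [hF]
  have hlt : ∀ x s, 0 ≤ s → s < cx x → A x N s < l := fun x s hs h =>
    lt_of_lt_cxx hl (hm x N le_rfl) (h0 x N le_rfl) hs h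
  have hc1 : ∀ x, cx x ≤ 1 := fun x => cxx_le_one hl (h0 x N le_rfl)
  have hFm : ∀ x i, MonotoneOn (F x i) (Icc 0 1) := fun x i s hs t ht hst =>
    min_le_min_right _ (hm x _ (Nat.sub_le _ _) hs ht hst)
  have hFz : ∀ x i, F x i 0 = 0 := fun x i => by
    show min (A x (N - i) 0) l = 0
    rw [h0 x _ (Nat.sub_le _ _)]
    exact min_eq_left hl.le
  have hFle : ∀ x i, ∀ s ∈ Icc (0 : ℝ) 1, F x i s ≤ F x 0 s := fun x i s hs => by
    rw [hF0]
    exact min_le_min_right _ (hle x _ (Nat.sub_le _ _) s hs)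
  -- the window where the bound of the total is below `l`
  set bw : ℝ → ℝ := fun w => l / (|w| + l + 1) with hbw
  have hbw0 : ∀ w, 0 < bw w := fun w => by
    have := abs_nonneg w
    positivity
  have hbw1 : ∀ w, bw w ≤ 1 := fun w => by
    have h1 := abs_nonneg w
    show l / (|w| + l + 1) ≤ 1
    rw [div_le_one (by linarith)]
    linarith
  have hbww : ∀ w, w * bw w < l := fun w => by
    have h1 := abs_nonneg w
    have h2 := le_abs_self w
    show w * (l / (|w| + l + 1)) < l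
    rw [← mul_div_assoc, div_lt_iff₀ (by linarith)]
    nlinarith
  have hcxb : ∀ x w, (∀ s ∈ Icc (0 : ℝ) 1, F x 0 s ≤ w * s) → bw w ≤ cx x := fun x w h => by
    have hs : bw w ∈ Icc (0 : ℝ) 1 := ⟨(hbw0 w).le, hbw1 w⟩
    refine le_cxx hs ?_
    have h1 := (h _ hs).trans_lt (hbww w)
    rw [hF0] at h1
    exact (min_lt_iff.mp h1).resolve_right (lt_irrefl _)
  -- derivatives
  have hder : ∀ x i c, c ∈ Ioo 0 (cx x) → deriv (F x i) c = deriv (A x (N - i)) c := fun x i c hc => by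
    apply Filter.EventuallyEq.deriv_eq
    filter_upwards [Ioo_mem_nhds hc.1 hc.2] with s hs
    have h1 := hlt x s hs.1.le hs.2
    have h2 := hle x (N - i) (Nat.sub_le _ _) s ⟨hs.1.le, hs.2.le.trans (hc1 x)⟩
    exact min_eq_left (h2.trans h1.le)
  have hFc : ∀ x, ∀ᵐ c ∂(volume.restrict (Ioo 0 (cx x))), ∃ y,
      (∀ i, ∀ s ∈ Icc (0 : ℝ) 1, F y i s ≤ deriv (F x i) c * s) ∧ G y ≤ g₀ := fun x => by
    filter_upwards [hcorner x, ae_restrict_mem measurableSet_Ioo] with c hc hcI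
    obtain ⟨y, hy, hy2⟩ := hc
    refine ⟨y, fun i s hs => ?_, hy⟩
    rw [hder x i c hcI]
    exact hy2 _ (Nat.sub_le _ _) s hs
  obtain ⟨g, w, ⟨x₀, hx₀, hx₀w⟩, hmin, hlin⟩ := select_all (G := G) (gb := fun _ => g₀) (F := F) (cx := cx) (bw := bw)
    hFm hFz hFle hc1 hbw0 hcxb (by
      obtain ⟨x, w, h⟩ := hne
      exact ⟨x, w, fun s hs => by rw [hF0]; exact h s hs⟩)
    (fun x w _ => by
      filter_upwards [hFc x] with c hc
      obtain ⟨y, hy, hg⟩ := hc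
      exact ⟨y, hy, fun _ _ => hg⟩)
    (fun g x w w' hg hxw hw => by
      obtain ⟨y, hy, hyw⟩ := hlim g x (fun k j => w k (N - j)) (fun j => w' (N - j)) hg
        (fun k j hj s hs => by
          have h1 := hxw k (N - j) s hs
          have e : N - (N - j) = j := by omega
          simp only [hF, e] at h1
          exact h1)
        (fun j _ => hw (N - j))
      refine ⟨y, hy, fun i s hs => ?_⟩
      rcases le_total i N with h | h
      · have h1 := hyw (N - i) (Nat.sub_le _ _) s hs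
        have e : N - (N - i) = i := by omega
        rw [e] at h1
        exact h1
      · -- the functionals after `N` are zero
        have e : N - i = 0 := by omega
        have h2 : ∀ k, 0 ≤ w k i * s := fun k => by
          have h3 := hxw k i s hs
          simp only [hF, e, hz] at h3
          rwa [min_eq_left hl.le] at h3
        have h4 : 0 ≤ w' i * s := ge_of_tendsto' ((hw i).mul_const s) h2
        show min (A y (N - i) s) l ≤ _
        rw [e, hz, min_eq_left hl.le]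
        exact h4) N
  -- exact values
  have hval : ∀ x, (∀ i, i ≤ N → ∀ s ∈ Icc (0 : ℝ) 1, F x i s ≤ w i * s) → ∀ i, i ≤ N →
      ∀ s ∈ Icc (0 : ℝ) (cx x), F x i s = w i * s := fun x hx i hi s hs => hlin x N le_rfl hx i hi s hs
  have hbx : ∀ x, (∀ i, i ≤ N → ∀ s ∈ Icc (0 : ℝ) 1, F x i s ≤ w i * s) → bw (w 0) ≤ cx x := fun x hx =>
    hcxb x _ fun s hs => hx 0 (Nat.zero_le _) s hs
  set b := bw (w 0) with hb
  have hb0 : 0 < b := hbw0 _
  have hb1 : b ≤ 1 := hbw1 _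
  have hbI : b ∈ Icc (0 : ℝ) 1 := ⟨hb0.le, hb1⟩
  have hbb : b ∈ Icc (0 : ℝ) b := ⟨hb0.le, le_rfl⟩
  have hbc : b ≤ cx x₀ := hbx x₀ hx₀w
  have hIcc : ∀ s ∈ Icc (0 : ℝ) b, s ∈ Icc (0 : ℝ) 1 := fun s hs => ⟨hs.1, hs.2.trans hb1⟩
  -- below `b` the total is below `l`
  have hb3 : ∀ x, (∀ s ∈ Icc (0 : ℝ) 1, F x 0 s ≤ w 0 * s) → ∀ s ∈ Icc (0 : ℝ) b, A x N s < l := fun x hx s hs => by
    have h1 := hx b hbI
    have h2 := h1.trans_lt (hbww (w 0))
    rw [hF0] at h2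
    have h3 := (min_lt_iff.mp h2).resolve_right (lt_irrefl _)
    exact (hm x N le_rfl (hIcc s hs) hbI hs.2).trans_lt h3
  have hFA : ∀ x, (∀ s ∈ Icc (0 : ℝ) 1, F x 0 s ≤ w 0 * s) → ∀ i, ∀ s ∈ Icc (0 : ℝ) b, F x i s = A x (N - i) s :=
    fun x hx i s hs => by
    have h1 := hb3 x hx s hs
    have h2 := hle x (N - i) (Nat.sub_le _ _) s (hIcc s hs)
    exact min_eq_left (h2.trans h1.le)
  have hx₀0 : ∀ s ∈ Icc (0 : ℝ) 1, F x₀ 0 s ≤ w 0 * s := fun s hs => hx₀w 0 (Nat.zero_le _) s hs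
  have hx₀v : ∀ i, i ≤ N → ∀ s ∈ Icc (0 : ℝ) b, A x₀ (N - i) s = w i * s := fun i hi s hs => by
    rw [← hFA x₀ hx₀0 i s hs]
    exact hval x₀ hx₀w i hi s ⟨hs.1, hs.2.trans hbc⟩
  refine ⟨g, fun j => w (N - j), ?_, ?_, ?_, ?_, ⟨x₀, hx₀, fun j hj s hs => ?_⟩, ?_, ?_⟩
  · -- the empty prefix
    have h1 := hx₀v N le_rfl b hbb
    rw [Nat.sub_self, hz] at h1
    show w (N - 0) = 0
    rw [Nat.sub_zero]
    rcases mul_eq_zero.mp h1.symm with h | h
    · exact h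
    · exact absurd h hb0.ne'
  · -- the first coordinate
    have h1 := hx₀v (N - 1) (Nat.sub_le _ _) b hbb
    have e : N - (N - 1) = 1 := by omega
    rw [e, hone x₀ b hbI (hb3 x₀ hx₀0 b hbb)] at h1
    show w (N - 1) = 1
    have h2 : (w (N - 1) - 1) * b = 0 := by linarith
    rcases mul_eq_zero.mp h2 with h | h
    · linarith
    · exact absurd h hb0.ne'
  · -- weights at least one
    intro n hn
    have h1 := hx₀v (N - n) (Nat.sub_le _ _) b hbb
    have h2 := hx₀v (N - (n + 1)) (Nat.sub_le _ _) b hbb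
    have e1 : N - (N - n) = n := by omega
    have e2 : N - (N - (n + 1)) = n + 1 := by omega
    rw [e1] at h1
    rw [e2] at h2
    have h3 := hge x₀ n hn b hbI (hb3 x₀ hx₀0 b hbb)
    rw [h1, h2] at h3
    show w (N - n) + 1 ≤ w (N - (n + 1))
    have h4 : (w (N - n) + 1) * b ≤ w (N - (n + 1)) * b := by linarith
    exact le_of_mul_le_mul_right h4 hb0
  · -- sorted weights
    intro n hn1 hnN
    obtain ⟨y, hy, hyn⟩ := hswap x₀ n hn1 hnN
    have hy0 : ∀ s ∈ Icc (0 : ℝ) 1, A y N s = A x₀ N s := fun s hs => hy N le_rfl (by omega) s hs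
    have hcy : cx y = cx x₀ := by
      show sSup _ = sSup _
      congr 1
      ext c
      constructor
      · rintro ⟨h1, h2⟩
        exact ⟨h1, by rw [← hy0 c h1]; exact h2⟩
      · rintro ⟨h1, h2⟩
        exact ⟨h1, by rw [hy0 c h1]; exact h2⟩
    have hy00 : ∀ s ∈ Icc (0 : ℝ) 1, F y 0 s ≤ w 0 * s := fun s hs => by
      rw [hF0, hy0 s hs, ← hF0]
      exact hx₀0 s hs
    have hFy : ∀ i, i ≠ N - n → ∀ s ∈ Icc (0 : ℝ) 1, F y i s = F x₀ i s := fun i hi s hs => by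
      show min (A y (N - i) s) l = min (A x₀ (N - i) s) l
      rw [hy (N - i) (Nat.sub_le _ _) (by omega) s hs]
    have hIb : Icc (0 : ℝ) b ⊆ Icc 0 1 := Icc_subset_Icc_right hb1
    have key := exchange (F := F) (w := w) (n := N - n) (b := b) hb0
      (fun x v h1 h2 => hmin (N - n) (Nat.sub_le _ _) x v h1 h2) (x := x₀) (x' := y)
      (fun i hi => by
        rw [hFA x₀ hx₀0 i b hbb]
        exact hx₀v i (by omega) b hbb)
      (fun i hi s hs => by
        rw [hFA x₀ hx₀0 i s hs]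
        exact hx₀v i (by omega) s hs)
      (fun i hi s hs => hFy i (by omega) s (hIb hs))
      (by
        have h1 := hyn b hbI (hb3 x₀ hx₀0 b hbb)
        rw [hFA y hy00 _ b hbb, hFA x₀ hx₀0 _ b hbb, hFA x₀ hx₀0 _ b hbb, hFA x₀ hx₀0 _ b hbb]
        have e1 : N - (N - n) = n := by omega
        have e2 : N - (N - n - 1) = n + 1 := by omega
        have e3 : N - (N - n + 1) = n - 1 := by omega
        rw [e1, e2, e3]
        linarith)
      ((hFm y _).mono hIb) (hFz y _)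
      (by
        have h1 : b ≤ cx y := by rw [hcy]; exact hbc
        have h2 := hFc y
        have h3 : volume.restrict (Ioo (0 : ℝ) b) ≤ volume.restrict (Ioo 0 (cx y)) :=
          Measure.restrict_mono (Ioo_subset_Ioo_right h1) le_rfl
        filter_upwards [ae_mono h3 h2] with c hc
        obtain ⟨z, hz, -⟩ := hc
        exact ⟨z, hz⟩)
    have e2 : N - n - 1 = N - (n + 1) := by omega
    have e3 : N - n + 1 = N - (n - 1) := by omega
    rw [e2, e3] at key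
    show w (N - n) - w (N - (n - 1)) ≤ w (N - (n + 1)) - w (N - n)
    linarith
  · have h1 := hx₀w (N - j) (Nat.sub_le _ _) s hs
    have e : N - (N - j) = j := by omega
    simp only [hF, e] at h1
    exact h1
  · -- the least speed of the total
    intro x v hxv
    show w (N - N) ≤ v
    rw [Nat.sub_self]
    refine hmin 0 (Nat.zero_le _) x v (fun i hi => absurd hi (Nat.not_lt_zero i)) fun s hs => ?_
    rw [hF0]
    exact hxv s hs
  · intro x hx j hj s hs hs1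
    have hxw : ∀ i, i ≤ N → ∀ s ∈ Icc (0 : ℝ) 1, F x i s ≤ w i * s := fun i hi s hs => by
      have h1 := hx (N - i) (Nat.sub_le _ _) s hs
      have e : N - (N - i) = i := by omega
      simp only [e] at h1
      exact h1
    have e0 : N - N = 0 := Nat.sub_self N
    simp only [e0] at hs1
    have h1 := hxw 0 (Nat.zero_le _) s hs
    rw [hF0] at h1
    have h2 : A x N s < l := (min_lt_iff.mp (h1.trans_lt hs1)).resolve_right (lt_irrefl _)
    have h3 : s ≤ cx x := le_cxx hs h2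
    have h4 := hval x hxw (N - j) (Nat.sub_le _ _) s ⟨hs.1, h3⟩
    have e : N - (N - j) = j := by omega
    simp only [hF, e] at h4
    rw [min_eq_left ((hle x j hj s hs).trans h2.le)] at h4
    exact h4

end Pool.Agent.Helper94.SEL
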