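import Pool.Agent.Helper94.SEL.Jnt
import Pool.Agent.Helper22.OC.One
import Pool.Agent.Helper52.MW.Minw
import Pool.Agent.Helper84.SEL.Numx

/-! THE FIRST HALF OF THE SELECTION: assembly of the rows. -/

set_option autoImplicit false

namespace Pool.Agent.Helper94.SEL

open Pool.Agent.Helper29.MX

/-- the first half from its rows -/
theorem jnt_rows {M : ℕ} {gb : ℕ → ℕ → ℝ → ℕ} (hG : TGR M) (hZ : ZOOMX M gb) (hz : TOPZ M) (hL : LIMX M)
    (hS : SCN M gb) (h1 : FIRST M) : JNT M := by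
  have hN := Pool.Agent.Helper84.SEL.numx M
  have hC := Pool.Agent.Helper22.OC.corn hZ hL
  exact jnt h1 hS (Pool.Agent.Helper52.MW.minw_row hN hL hC hz hG) (Pool.Agent.Helper22.OC.onec hC hz hG) hC

end Pool.Agent.Helper94.SEL
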