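import Pool.Agent.Helper94.SEL.St

set_option autoImplicit false

namespace Pool.Agent.Helper94.SEL

open Finset Filter Topology Matrix Pool.Agent.Helper69.RK Pool.Agent.Helper31.EC Pool.Agent.Helper31.EC.Sp
open Pool.Agent.Helper40.EL Pool.Agent.Helper89.LX Pool.Agent.Helper84.MT
open Pool.Agent.Helper49.MD Pool.Agent.Helper36.AM
open Pool.Agent.Helper3.LF (Mon)
open Pool.Agent.Helper7.RD (RW)
open Pool.Agent.Helper29.MX

noncomputable section

variable {S : Sp} {N : ℕ} {E : ℕ → ℕ} {ι : Type}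

theorem grB_anti {D : ℕ} {Q : S.VV N} {x : ∀ k, FD (S.F k) (Mon N D)} {e e' : ℝ} (h : e' ≤ e) (hx : GrB Q x e) :
    GrB Q x e' := by
  obtain ⟨K, hK, hT⟩ := hx
  refine ⟨K, hK, hT.mono ?_⟩
  filter_upwards [hK.1] with k hk ω _ h1 v
  refine (h1 v).trans ?_
  have h2 : S.dl e k ≤ S.dl e' k := dl_anti S h k
  have h3 : 0 ≤ v ⬝ᵥ v := by
    unfold dotProduct
    exact Finset.sum_nonneg fun i _ => mul_self_nonneg _
  have h4 : (S.dl e k / S.dl 1 k) ^ 2 ≤ (S.dl e' k / S.dl 1 k) ^ 2 := by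
    apply pow_le_pow_left₀ (div_nonneg (S.dl_pos e k).le (S.dl_pos 1 k).le)
    exact div_le_div_of_nonneg_right h2 (S.dl_pos 1 k).le
  exact mul_le_mul_of_nonneg_right (mul_le_mul_of_nonneg_left h4 hk) h3

theorem TopG.anti {s : MSys S N E ι} {R : Rsl S} {c e e' : ℝ} (h : e' ≤ e) (hx : TopG s R c e) : TopG s R c e' :=
  fun D x hk => grB_anti h (hx D x hk)

end

end Pool.Agent.Helper94.SEL
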